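import Pool.Agent.H917AT.Eqv

set_option autoImplicit false

universe u

namespace Pool.Agent.Results.MP_585e9a_al.WeakImpliesStrong

open Pool.Agent.H917AT

open Classical in
/-- The von Neumann dimension of the kernel of `r_A : ℓ²(G)^m → ℓ²(G)^n`: the sum over `i` of
`1 - dist(δ_(i,1), kernel)²`. -/
noncomputable def dimKer {G : Type u} [Group G] {m n : ℕ} (A : Matrix (Fin m) (Fin n) (G →₀ ℂ)) :
    ℝ :=
  ∑ i : Fin m,
    (1 - (Metric.infDist
      (lp.single 2 (i, (1 : G)) (1 : ℂ) : lp (fun _ : Fin m × G => ℂ) 2)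
      {x : lp (fun _ : Fin m × G => ℂ) 2 | ∀ (j : Fin n) (g : G),
        ∑ i' : Fin m, (A i' j).sum (fun h c => x (i', g * h⁻¹) * c) = 0}) ^ 2)

/-- The von Neumann rank of the matrix `A`, computed as `m - dim ker r_A`. -/
noncomputable def rk {G : Type u} [Group G] {m n : ℕ} (A : Matrix (Fin m) (Fin n) (G →₀ ℂ)) :
    ℝ := m - dimKer A

/-- the coefficients -/
noncomputable def FS (F : Subfield ℂ) : AddSubmonoid ℂ := F.toSubring.toAddSubgroup.toAddSubmonoid

theorem DD_iff (F : Subfield ℂ) {G : Type u} [Group G] (t : ℝ) :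
    DD (FS F) G t ↔ ∃ (m n : ℕ) (A : Matrix (Fin m) (Fin n) (G →₀ ℂ)),
      (∀ i j g, A i j g ∈ F) ∧ dimKer A = t := Iff.rfl

/-- For every subfield `F` of `ℂ`, equivalence of
1. the strong Atiyah conjecture over `F` for torsion-free groups: `rk(A) ∈ ℤ` for every torsion-free
   group `G` and every matrix `A` over `F[G]`;
2. the weak Atiyah conjecture over `F` for finitely generated torsion-free groups: for every such
   `G` there is an integer `N > 0` such that `N * rk(A) ∈ ℤ` for all matrices `A` over `F[G]`;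
3. for every finitely generated torsion-free group `G` there is a nonempty open subinterval `(r, s)`
   of `[0, 1]` such that no rank `rk(A)`, `A` a matrix over `F[G]`, lies in `l + (r, s)`, `l ∈ ℤ`. -/
theorem result (F : Subfield ℂ) : List.TFAE [
    ∀ (G : Type u) [Group G], (∀ (g : G) (n : ℕ), 0 < n → g ^ n = 1 → g = 1) →
      ∀ (m n : ℕ) (A : Matrix (Fin m) (Fin n) (G →₀ ℂ)), (∀ i j g, A i j g ∈ F) →
        ∃ d : ℤ, rk A = d,
    ∀ (G : Type u) [Group G], (∀ (g : G) (n : ℕ), 0 < n → g ^ n = 1 → g = 1) → Group.FG G →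
      ∃ N : ℕ, 0 < N ∧ ∀ (m n : ℕ) (A : Matrix (Fin m) (Fin n) (G →₀ ℂ)),
        (∀ i j g, A i j g ∈ F) → ∃ d : ℤ, (N : ℝ) * rk A = d,
    ∀ (G : Type u) [Group G], (∀ (g : G) (n : ℕ), 0 < n → g ^ n = 1 → g = 1) → Group.FG G →
      ∃ r s : ℝ, 0 ≤ r ∧ r < s ∧ s ≤ 1 ∧
        ∀ (m n : ℕ) (A : Matrix (Fin m) (Fin n) (G →₀ ℂ)), (∀ i j g, A i j g ∈ F) →
          ∀ l : ℤ, ¬ (r < rk A - l ∧ rk A - l < s)] := by
  have he := eqv.{u} (FS F)
  have h12 := he.out 0 1
  have h13 := he.out 0 2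
  have fin : (∀ (G : Type u) [Group G], TF G → ∀ t : ℝ, DD (FS F) G t → ∃ d : ℤ, t = d) →
      ∀ (G : Type u) [Group G], TF G → ∀ (m n : ℕ) (A : Matrix (Fin m) (Fin n) (G →₀ ℂ)),
        (∀ i j g, A i j g ∈ F) → ∃ d : ℤ, rk A = d := by
    intro h G _ hG m n A hA
    obtain ⟨d, hd⟩ := h G hG (dimKer A) ⟨m, n, A, hA, rfl⟩
    exact ⟨m - d, by unfold rk; rw [hd]; push_cast; ring⟩
  tfae_have 1 → 2 := by
    intro h G _ hG _
    refine ⟨1, one_pos, fun m n A hA => ?_⟩
    obtain ⟨d, hd⟩ := h G hG m n A hA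
    exact ⟨d, by rw [hd]; simp⟩
  tfae_have 1 → 3 := by
    intro h G _ hG _
    refine ⟨0, 1, le_rfl, one_pos, le_rfl, fun m n A hA l => ?_⟩
    obtain ⟨d, hd⟩ := h G hG m n A hA
    rw [hd]
    rintro ⟨h1, h2⟩
    have h3 : (l : ℝ) < d := by linarith
    have h4 : (d : ℝ) < l + 1 := by linarith
    have h5 : l < d := by exact_mod_cast h3
    have h6 : d < l + 1 := by exact_mod_cast h4
    omega
  tfae_have 2 → 1 := by
    intro h
    refine fin (h12.2 (fun G _ hG hfg => ?_))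
    obtain ⟨N, hN, hN2⟩ := h G hG hfg
    refine ⟨N, hN, fun t ht => ?_⟩
    obtain ⟨m', n', A', hA', rfl⟩ := (DD_iff F t).1 ht
    obtain ⟨d, hd⟩ := hN2 m' n' A' hA'
    refine ⟨N * m' - d, ?_⟩
    unfold rk at hd
    push_cast
    rw [← hd]
    ring
  tfae_have 3 → 1 := by
    intro h
    refine fin (h13.2 (fun G _ hG hfg => ?_))
    obtain ⟨r, s, h1, h2, h3, h4⟩ := h G hG hfg
    refine ⟨1 - s, 1 - r, by linarith, by linarith, by linarith, fun t ht l hl => ?_⟩
    obtain ⟨m', n', A', hA', rfl⟩ := (DD_iff F t).1 ht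
    refine h4 m' n' A' hA' (m' - l - 1) ?_
    unfold rk
    push_cast
    constructor
    · linarith [hl.2]
    · linarith [hl.1]
  tfae_finish

end Pool.Agent.Results.MP_585e9a_al.WeakImpliesStrong
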